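import Pool.Agent.helper7.IG.Basic
import Pool.Agent.helper92.IG.R2

/-!
# IG: module F1, the first identities
-/

set_option autoImplicit false

open Polynomial

noncomputable section

namespace Pool.Agent.helper7.IG

open Classical in
lemma F1_EE_coeff (n : ℕ) : PowerSeries.coeff n Pool.Agent.helper81.EE =
    if ∃ m : ℤ, m ^ 2 = 24 * (n : ℤ) + 1 then 1 else 0 := by
  have hz : ∀ a : ZMod 2, a ≠ 0 → a = 1 := by decide
  by_cases h : n ∈ Set.range pentagonal
  · obtain ⟨k, rfl⟩ := h
    rw [if_pos]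
    · apply hz
      intro h0
      exact (PowerSeries.coeff_pentagonalSeries_eq_zero_iff (ZMod 2)).mp h0 ⟨k, rfl⟩
    · refine ⟨6 * k - 1, ?_⟩
      have := two_mul_natCast_pentagonal k
      linear_combination (-12) * this
  · rw [if_neg, (PowerSeries.coeff_pentagonalSeries_eq_zero_iff (ZMod 2)).mpr h]
    rintro ⟨m, hm⟩
    apply h
    have h6 : m % 6 = 1 ∨ m % 6 = 5 := by
      have h2 : m % 6 = 0 ∨ m % 6 = 1 ∨ m % 6 = 2 ∨ m % 6 = 3 ∨ m % 6 = 4 ∨ m % 6 = 5 := by omega
      have h3 : m ^ 2 % 6 = 1 := by omega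
      rcases h2 with h2 | h2 | h2 | h2 | h2 | h2 <;> simp [pow_two, Int.mul_emod, h2] at h3 <;> tauto
    rcases h6 with h6 | h6
    · obtain ⟨k, hk⟩ : ∃ k : ℤ, m = 6 * k + 1 := ⟨m / 6, by omega⟩
      refine ⟨-k, ?_⟩
      have h7 := two_mul_natCast_pentagonal (-k)
      have h8 : ((pentagonal (-k) : ℕ) : ℤ) = n := by
        subst hk
        nlinarith
      exact_mod_cast h8
    · obtain ⟨k, hk⟩ : ∃ k : ℤ, m = 6 * k - 1 := ⟨(m + 1) / 6, by omega⟩
      refine ⟨k, ?_⟩
      have h7 := two_mul_natCast_pentagonal k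
      have h8 : ((pentagonal k : ℕ) : ℤ) = n := by
        subst hk
        nlinarith
      exact_mod_cast h8

open Classical in
lemma F1_EE3_coeff (n : ℕ) : PowerSeries.coeff n (Pool.Agent.helper81.EE ^ 3) =
    if ∃ s : ℕ, s * (s + 1) / 2 = n then 1 else 0 := by
  rw [(Pool.Agent.helper81.EE_cube_cg n).coeff_eq (show n < 2 * n + 1 by omega), map_sum]
  simp only [PowerSeries.coeff_X_pow]
  have h2 : ∀ s : ℕ, 2 * (s * (s + 1) / 2) = s * (s + 1) := fun s =>
    Nat.mul_div_cancel' (Nat.even_mul_succ_self s).two_dvd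
  split_ifs with h
  · obtain ⟨s, hs⟩ := h
    rw [Finset.sum_eq_single s]
    · rw [if_pos hs.symm]
    · intro t _ hts
      rw [if_neg]
      intro h3
      apply hts
      have h4 := h2 s
      have h5 := h2 t
      rw [hs] at h4
      rw [← h3, h4] at h5
      rcases lt_trichotomy t s with h6 | h6 | h6
      · nlinarith
      · exact h6
      · nlinarith
    · intro h3
      exfalso
      apply h3
      rw [Finset.mem_range]
      have h4 := h2 s
      rw [hs] at h4
      nlinarith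
  · apply Finset.sum_eq_zero
    intro s _
    rw [if_neg]
    intro h3
    exact h ⟨s, h3.symm⟩

lemma F1_pow8 (g : ℕ → kk) (hg : ∀ n, g n ^ 2 = g n) : (PowerSeries.mk g) ^ 8 =
    PowerSeries.mk (fun n => if 8 ∣ n then g (n / 8) else 0) := by
  rw [show (8 : ℕ) = 2 * 2 * 2 by norm_num, pow_mul, pow_mul, r2_sq, r2_sq, r2_sq]
  congr 1
  funext n
  by_cases h8 : 2 * 2 * 2 ∣ n
  · obtain ⟨k, rfl⟩ := h8
    rw [if_pos (by omega), if_pos (by omega), if_pos (by omega), if_pos (by omega)]
    rw [show 2 * 2 * 2 * k / 2 / 2 / 2 = k by omega, show 2 * 2 * 2 * k / (2 * 2 * 2) = k by omega,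
      hg, hg, hg]
  · rw [if_neg h8]
    by_cases h1 : 2 ∣ n
    · rw [if_pos h1]
      by_cases h3 : 2 ∣ n / 2
      · rw [if_pos h3, if_neg (by omega)]
        simp
      · rw [if_neg h3]
        simp
    · rw [if_neg h1]

open Classical in
lemma F1_Ex_coeff (n : ℤ) : Ex.coeff n =
    if ∃ m : ℤ, m ^ 2 = n ∧ ¬ (2 : ℤ) ∣ m ∧ ¬ (3 : ℤ) ∣ m then 1 else 0 := by
  unfold Ex
  rw [ps_coeff]
  by_cases h : 0 ≤ n
  · rw [if_pos h]
    have h2 : ((n.toNat : ℕ) : ℤ) = n := Int.toNat_of_nonneg h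
    rw [h2]
  · rw [if_neg h, if_neg]
    rintro ⟨m, hm, _⟩
    exact h (hm ▸ sq_nonneg m)

lemma F1_a : im2 (PowerSeries.X * Pool.Agent.helper81.EE ^ 24) = DDk := by
  classical
  ext n
  rw [DDk_coeff]
  by_cases hn : n < 0
  · rw [im2_coeff_neg _ _ hn, if_neg]
    rintro ⟨m, hm, _⟩
    have := sq_nonneg m
    omega
  · obtain ⟨k, rfl⟩ := Int.eq_ofNat_of_zero_le (not_lt.mp hn)
    rw [im2_coeff_nat, ← PowerSeries.coeff_map, map_mul, PowerSeries.map_X, map_pow,
      show (24 : ℕ) = 3 * 8 by norm_num, pow_mul, ← map_pow]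
    have h3 : PowerSeries.map (algebraMap (ZMod 2) kk) (Pool.Agent.helper81.EE ^ 3) =
        PowerSeries.mk (fun n : ℕ => if ∃ s : ℕ, s * (s + 1) / 2 = n then (1 : kk) else 0) := by
      ext j
      rw [PowerSeries.coeff_map, F1_EE3_coeff, PowerSeries.coeff_mk]
      split_ifs
      · exact map_one _
      · exact map_zero _
    rw [h3, F1_pow8]
    · rcases k with _ | k
      · rw [PowerSeries.coeff_zero_X_mul, if_neg]
        rintro ⟨m, hm, ho⟩
        have : m = 0 := by
          have h0 : m ^ 2 = 0 := by simpa using hm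
          exact pow_eq_zero_iff (two_ne_zero) |>.mp h0
        subst this
        exact absurd ho (by decide)
      · rw [PowerSeries.coeff_succ_X_mul, PowerSeries.coeff_mk]
        have h2 : ∀ s : ℕ, 2 * (s * (s + 1) / 2) = s * (s + 1) := fun s =>
          Nat.mul_div_cancel' (Nat.even_mul_succ_self s).two_dvd
        by_cases h : ∃ m : ℤ, m ^ 2 = ((k + 1 : ℕ) : ℤ) ∧ Odd m
        · rw [if_pos h]
          obtain ⟨m, hm, ho⟩ := h
          have ho2 : Odd m.natAbs := Int.natAbs_odd.mpr ho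
          obtain ⟨s, hs⟩ := ho2
          have hm2 : (2 * s + 1) ^ 2 = k + 1 := by
            have h4 : ((m.natAbs : ℕ) : ℤ) ^ 2 = ((k + 1 : ℕ) : ℤ) := by
              rw [Int.natAbs_sq]; exact hm
            rw [hs] at h4
            exact_mod_cast h4
          have h5 := h2 s
          have h6 : k = 8 * (s * (s + 1) / 2) := by nlinarith
          rw [if_pos ⟨_, h6⟩, if_pos]
          exact ⟨s, by rw [h6]; omega⟩
        · rw [if_neg h]
          split_ifs with h8 hs
          · exfalso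
            apply h
            obtain ⟨s, hs⟩ := hs
            refine ⟨2 * (s : ℤ) + 1, ?_, ⟨s, rfl⟩⟩
            obtain ⟨j, rfl⟩ := h8
            have h9 : 8 * j / 8 = j := by omega
            rw [h9] at hs
            have h5 := h2 s
            rw [hs] at h5
            have h10 : (2 : ℤ) * j = s * (s + 1) := by exact_mod_cast h5
            push_cast
            linear_combination (-4) * h10
          · rfl
          · rfl
    · intro j
      split_ifs <;> simp

lemma F1_b : Ex = xx * sig 24 1 (im2 Pool.Agent.helper81.EE) := by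
  classical
  ext n
  rw [F1_Ex_coeff]
  have h1 : (xx * sig 24 1 (im2 Pool.Agent.helper81.EE)).coeff n =
      (sig 24 1 (im2 Pool.Agent.helper81.EE)).coeff (n - 1) := by
    have := HahnSeries.coeff_single_mul_add (r := (1 : kk))
      (x := sig 24 1 (im2 Pool.Agent.helper81.EE)) (a := n - 1) (b := 1)
    rw [sub_add_cancel, one_mul] at this
    exact this
  rw [h1, sig_coeff (by norm_num)]
  split_ifs with h h2 h2
  · obtain ⟨m, hm, h3, h4⟩ := h
    obtain ⟨j, hj⟩ := h2
    have hj0 : 0 ≤ j := by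
      have h5 : 0 < n := by
        rw [← hm]
        have : m ≠ 0 := by rintro rfl; exact h3 (dvd_zero 2)
        positivity
      push_cast at hj
      omega
    obtain ⟨k, rfl⟩ := Int.eq_ofNat_of_zero_le hj0
    rw [hj, Int.mul_ediv_cancel_left _ (by norm_num), one_zpow, Units.val_one, one_mul,
      im2_coeff_nat, F1_EE_coeff, if_pos, map_one]
    refine ⟨m, ?_⟩
    push_cast at hj
    rw [hm]
    omega
  · exfalso
    apply h2
    obtain ⟨m, hm, h3, h4⟩ := h
    obtain ⟨a, ha⟩ : ∃ a, m = 2 * a + 1 := ⟨m / 2, by omega⟩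
    have h5 : n - 1 = 4 * (a * (a + 1)) := by rw [← hm, ha]; ring
    obtain ⟨b, hb⟩ := Int.even_mul_succ_self a
    have h6 : n - 1 = 8 * b := by rw [h5, hb]; ring
    have h7 : (3 : ℤ) ∣ n - 1 := by
      have h8 : n - 1 = (m - 1) * (m + 1) := by rw [← hm]; ring
      rw [h8]
      have h9 : m % 3 = 1 ∨ m % 3 = 2 := by omega
      rcases h9 with h9 | h9
      · exact Dvd.dvd.mul_right (by omega) _
      · exact Dvd.dvd.mul_left (by omega) _
    push_cast
    omega
  · obtain ⟨j, hj⟩ := h2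
    rw [hj, Int.mul_ediv_cancel_left _ (by norm_num), one_zpow, Units.val_one, one_mul]
    by_cases hj0 : j < 0
    · rw [im2_coeff_neg _ _ hj0]
    · obtain ⟨k, rfl⟩ := Int.eq_ofNat_of_zero_le (not_lt.mp hj0)
      rw [im2_coeff_nat, F1_EE_coeff, if_neg, map_zero]
      rintro ⟨m, hm⟩
      apply h
      push_cast at hj
      refine ⟨m, by rw [hm]; omega, ?_, ?_⟩
      · rintro ⟨a, rfl⟩
        have : 2 * (2 * (a * a)) = 24 * (k : ℤ) + 1 := by rw [← hm]; ring
        omega
      · rintro ⟨a, rfl⟩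
        have : 3 * (3 * (a * a)) = 24 * (k : ℤ) + 1 := by rw [← hm]; ring
        omega
  · rfl

lemma F1_c : Wt 1 0 * Ex = 1 := by
  classical
  have h1 : Wt 1 0 = HahnSeries.single (-1 : ℤ) 1 * sig 24 1 (im2 Pool.Agent.helper81.PP) := by
    unfold Wt
    congr 1
    ext n
    rw [ps_coeff, sig_coeff (by norm_num)]
    by_cases hn : 0 ≤ n
    · rw [if_pos hn]
      obtain ⟨k, rfl⟩ := Int.eq_ofNat_of_zero_le hn
      rw [Int.toNat_natCast]
      by_cases h : 24 ∣ k
      · obtain ⟨j, rfl⟩ := h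
        rw [if_pos ⟨dvd_mul_right _ _, Nat.modEq_one⟩, Nat.mul_div_cancel_left _ (by norm_num)]
        push_cast
        rw [if_pos (dvd_mul_right _ _), Int.mul_ediv_cancel_left _ (by norm_num), one_zpow,
          one_mul, im2_coeff_nat]
        unfold Pool.Agent.helper81.PP pk
        rw [PowerSeries.coeff_mk, map_natCast]
      · rw [if_neg (fun h2 => h h2.1), if_neg]
        intro h2
        apply h
        exact_mod_cast h2
    · rw [if_neg hn]
      split_ifs with h
      · rw [im2_coeff_neg, mul_zero]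
        push_cast at h ⊢
        omega
      · rfl
  rw [h1, F1_b]
  have h2 : HahnSeries.single (-1 : ℤ) (1 : kk) * xx = 1 := by
    unfold xx
    rw [HahnSeries.single_mul_single]
    norm_num
  have h3 : sig 24 1 (im2 Pool.Agent.helper81.PP) * sig 24 1 (im2 Pool.Agent.helper81.EE) = 1 := by
    rw [← map_mul, ← map_mul, Pool.Agent.helper81.PP_mul_EE, map_one, map_one]
  calc _ = (HahnSeries.single (-1 : ℤ) (1 : kk) * xx) *
      (sig 24 1 (im2 Pool.Agent.helper81.PP) * sig 24 1 (im2 Pool.Agent.helper81.EE)) := by ring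
    _ = 1 := by rw [h2, h3, one_mul]

lemma F1_d : Ex ^ 3 = sig 3 1 DDk := by
  classical
  rw [F1_b, mul_pow, ← map_pow, ← map_pow]
  have hx : xx ^ 3 = HahnSeries.single (3 : ℤ) (1 : kk) := by
    unfold xx
    rw [HahnSeries.single_pow]
    norm_num
  rw [hx]
  ext n
  have h1 : (HahnSeries.single (3 : ℤ) (1 : kk) * sig 24 1 (im2 (Pool.Agent.helper81.EE ^ 3))).coeff n =
      (sig 24 1 (im2 (Pool.Agent.helper81.EE ^ 3))).coeff (n - 3) := by
    have := HahnSeries.coeff_single_mul_add (r := (1 : kk))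
      (x := sig 24 1 (im2 (Pool.Agent.helper81.EE ^ 3))) (a := n - 3) (b := 3)
    rw [sub_add_cancel, one_mul] at this
    exact this
  have h2 : ∀ s : ℕ, 2 * (s * (s + 1) / 2) = s * (s + 1) := fun s =>
    Nat.mul_div_cancel' (Nat.even_mul_succ_self s).two_dvd
  rw [h1, sig_coeff (by norm_num), sig_coeff (by norm_num)]
  simp only [Nat.cast_ofNat, one_zpow, Units.val_one, one_mul]
  by_cases h3 : (3 : ℤ) ∣ n
  · rw [if_pos h3]
    obtain ⟨l, rfl⟩ := h3
    rw [Int.mul_ediv_cancel_left _ (by norm_num), DDk_coeff]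
    by_cases h : ∃ m : ℤ, m ^ 2 = l ∧ Odd m
    · rw [if_pos h]
      obtain ⟨m, hm, ho⟩ := h
      have ho2 : Odd m.natAbs := Int.natAbs_odd.mpr ho
      obtain ⟨s, hs⟩ := ho2
      have hm2 : (2 * (s : ℤ) + 1) ^ 2 = l := by
        have h4 : ((m.natAbs : ℕ) : ℤ) ^ 2 = l := by
          rw [Int.natAbs_sq]; exact hm
        rw [hs] at h4
        exact_mod_cast h4
      have h5 : (2 : ℤ) * ((s * (s + 1) / 2 : ℕ) : ℤ) = s * (s + 1) := by exact_mod_cast h2 s
      have h6 : 3 * l - 3 = 24 * ((s * (s + 1) / 2 : ℕ) : ℤ) := by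
        rw [← hm2]
        linear_combination (-12) * h5
      rw [if_pos ⟨_, h6⟩, h6, Int.mul_ediv_cancel_left _ (by norm_num), im2_coeff_nat, F1_EE3_coeff, if_pos ⟨s, rfl⟩, map_one]
    · rw [if_neg h]
      split_ifs with h8
      · obtain ⟨j, hj⟩ := h8
        rw [hj, Int.mul_ediv_cancel_left _ (by norm_num)]
        by_cases hj0 : j < 0
        · rw [im2_coeff_neg _ _ hj0]
        · obtain ⟨k, rfl⟩ := Int.eq_ofNat_of_zero_le (not_lt.mp hj0)
          rw [im2_coeff_nat, F1_EE3_coeff, if_neg, map_zero]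
          rintro ⟨s, hs⟩
          apply h
          refine ⟨2 * (s : ℤ) + 1, ?_, ⟨s, rfl⟩⟩
          have h5 := h2 s
          rw [hs] at h5
          have h10 : (2 : ℤ) * k = s * (s + 1) := by exact_mod_cast h5
          have h11 : l - 1 = 8 * k := by omega
          linear_combination (-4) * h10 - h11
      · rfl
  · rw [if_neg h3, if_neg (by omega)]

/-- Module F1. -/
theorem F1 : F1_stmt := ⟨F1_a, F1_b, F1_c, F1_d⟩

end Pool.Agent.helper7.IG
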